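import Pool.Agent.H13.K2S.Mnj

/-!
# (LIP): the critical row moves at most linearly over rows which are not full

`MNJ1Stmt` (one window step, one row which is not full, loss of `b` rows) implies: if the frames
of the windows `w'` are conserved up to the row `w' + l'`, those of the windows `w ≤ w'` are not
conserved up to the row `w + l + 1`, and `(w' + l') - (w + l) > C (w' - w)`, then the rows between
`w + l` and `w' + l'` are full up to `c`.  `C` depends on `c` only.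
-/

set_option autoImplicit false

namespace Pool.Agent.H60.K2S

open Finset Real
open Pool.Agent.H49.Ent Pool.Agent.H32.Dense Pool.STK Pool.KA Pool.KSAT Pool.K2S

/-- **(LIP)** The critical row moves at most linearly over rows which are not full. -/
def LIPStmt : Prop :=
  ∀ a R : ℝ, 1 < a → 0 < R → UBa 2 a R → ∀ c μ h₁ ω₀ : ℝ, 0 < c → 0 < μ → 0 < h₁ → 0 < ω₀ →
    ∃ C N₁ : ℕ, ∀ N ≥ N₁, ∀ (i₀ : Fin 2) (w w' l l' : ℕ), w ≤ w' → ω₀ * N ≤ (w : ℝ) →
      ω₀ * N ≤ (N : ℝ) - (w' + l') → w + l + C * (w' - w) < w' + l' →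
    Claim (m := 2) a R (fun J F A => Lb F i₀ ⌊h₁ * J⌋₊ A →
      (∀ h : ℕ, (h : ℝ) ≤ ((w' : ℝ) + l' - w) * (J / N : ℕ) + μ * J → Ln F i₀ h A) →
      Cn F i₀ (l' * (J / N)) (w' * (J / N)) A →
      ¬ Cn F i₀ ((l + 1) * (J / N)) (w * (J / N)) A →
      (2 - c) * (((w' : ℝ) + l' - (w + l)) * ((J / N : ℕ) * Real.log 2)) <
        CH (Pool.Agent.H49.Ent.cond F.p A True) (F.X ((w' + l') * (J / N)))
          (fun ω => (F.X ((w + l) * (J / N)) ω, F.W ω)))

/-- The number of rows which the critical row jumps over without being far from them. -/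
theorem bad_count (Q : ℕ → ℕ → Prop) (B : ℕ → Prop) {w w' l l' b : ℕ} (hw : w ≤ w')
    (hQ0 : ∀ w, Q 0 w) (hQl : ∀ l l' w, l' ≤ l → Q l w → Q l' w)
    (h' : Q l' w') (h : ¬ Q (l + 1) w)
    (hB : ∀ q v, w + l ≤ q → q < w' + l' → w ≤ v → v < w' → v + 1 ≤ q → B q → b ≤ q - (v + 1) →
      Q (q - (v + 1)) (v + 1) → Q (q - (v + 1) - b) v) :
    letI := Classical.decPred B
    ((Finset.Ico (w + l) (w' + l')).filter B).card ≤ (b + 2) * (w' - w) := by
  classical
  have hex : ∀ q, w + l ≤ q → q < w' + l' → ∃ v, w < v ∧ v ≤ w' ∧ v ≤ q + 1 ∧ Q (q + 1 - v) v ∧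
      ¬ Q (q + 1 - (v - 1)) (v - 1) := by
    intro q hq hq'
    have hex : ∃ v, w ≤ v ∧ Q (q + 1 - v) v := ⟨w', hw, hQl _ _ _ (by omega) h'⟩
    obtain ⟨v, ⟨h1, h2⟩, h3⟩ : ∃ v, (w ≤ v ∧ Q (q + 1 - v) v) ∧
        ∀ u < v, ¬ (w ≤ u ∧ Q (q + 1 - u) u) :=
      ⟨Nat.find hex, Nat.find_spec hex, fun u hu => Nat.find_min hex hu⟩
    have h4 : w ≠ v := by
      rintro rfl
      exact h (hQl _ _ _ (by omega) h2)
    have h5 : v ≤ w' := by
      by_contra hcon
      exact h3 w' (by omega) ⟨hw, hQl _ _ _ (by omega) h'⟩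
    have h6 : v ≤ q + 1 := by
      by_contra hcon
      refine h3 (q + 1) (by omega) ⟨by omega, ?_⟩
      rw [Nat.sub_self]
      exact hQ0 _
    exact ⟨v, by omega, h5, h6, h2, fun hq => h3 (v - 1) (by omega) ⟨by omega, hq⟩⟩
  obtain ⟨V, hV⟩ : ∃ V : ℕ → ℕ, ∀ q, w + l ≤ q → q < w' + l' → w < V q ∧ V q ≤ w' ∧ V q ≤ q + 1 ∧
      Q (q + 1 - V q) (V q) ∧ ¬ Q (q + 1 - (V q - 1)) (V q - 1) := by
    refine ⟨fun q => if hq : w + l ≤ q ∧ q < w' + l' then (hex q hq.1 hq.2).choose else 0,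
      fun q hq hq' => ?_⟩
    have := (hex q hq hq').choose_spec
    simp only [hq, hq', and_self, dif_pos]
    exact this
  have hmap : ∀ q ∈ (Finset.Ico (w + l) (w' + l')).filter B, V q ∈ Finset.Ioc w w' := by
    intro q hq
    rw [Finset.mem_filter, Finset.mem_Ico] at hq
    obtain ⟨h1, h2, -⟩ := hV q hq.1.1 hq.1.2
    rw [Finset.mem_Ioc]
    exact ⟨h1, h2⟩
  have hcard := Finset.card_le_mul_card_image_of_maps_to hmap (b + 2) (fun v hv => ?_)
  · rw [Nat.card_Ioc] at hcard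
    exact hcard
  · -- a fibre
    rcases Finset.eq_empty_or_nonempty
      (((Finset.Ico (w + l) (w' + l')).filter B).filter fun q => V q = v) with he | hne
    · rw [he]; simp
    obtain ⟨q₀, hq₀, hmin⟩ := Finset.exists_min_image _ (fun q => q) hne
    have hsub : (((Finset.Ico (w + l) (w' + l')).filter B).filter fun q => V q = v) ⊆
        Finset.Ico q₀ (q₀ + (b + 2)) := by
      intro q hq
      have h0 := hmin q hq
      rw [Finset.mem_filter, Finset.mem_filter, Finset.mem_Ico] at hq hq₀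
      obtain ⟨⟨⟨a1, a2⟩, a3⟩, a4⟩ := hq
      obtain ⟨⟨⟨c1, c2⟩, c3⟩, c4⟩ := hq₀
      obtain ⟨d1, d2, d3, d4, d5⟩ := hV q a1 a2
      obtain ⟨e1, e2, e3, e4, e5⟩ := hV q₀ c1 c2
      rw [a4] at d1 d2 d3 d4 d5
      rw [c4] at e1 e2 e3 e4 e5
      rw [Finset.mem_Ico]
      refine ⟨h0, ?_⟩
      by_contra hcon
      have hv1 : v - 1 + 1 = v := by omega
      have := hB q (v - 1) a1 a2 (by omega) (by omega) (by omega) a3 (by rw [hv1]; omega)
        (by rw [hv1]; exact hQl _ _ _ (by omega) d4)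
      rw [hv1] at this
      exact e5 (hQl _ _ _ (by omega) this)
    refine (Finset.card_le_card hsub).trans ?_
    rw [Nat.card_Ico]
    omega

theorem lip_thm (h1 : MNJ1Stmt) : LIPStmt := by
  classical
  intro a R ha hR hU c₀ μ h₁ ω₀ hc₀ hμ hh₁ hω₀
  have hl2 : 0 < Real.log 2 := Real.log_pos (by norm_num)
  obtain ⟨c, hc⟩ : ∃ c, c = min c₀ 1 := ⟨_, rfl⟩
  have hc0 : 0 < c := by rw [hc]; exact lt_min hc₀ one_pos
  have hc1 : c ≤ 1 := by rw [hc]; exact min_le_right _ _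
  have hcc : c ≤ c₀ := by rw [hc]; exact min_le_left _ _
  obtain ⟨b, N₁, h1⟩ := h1 a R ha hR hU (c / 2) μ h₁ ω₀ (half_pos hc0) hμ hh₁ hω₀
  obtain ⟨C, hC⟩ := exists_nat_gt (4 * ((b : ℝ) + 2) / c)
  have hC' : 4 * ((b : ℝ) + 2) < C * c := by rwa [div_lt_iff₀ hc0] at hC
  refine ⟨C, max N₁ 1, fun N hN i₀ w w' l l' hw hω hω' hCw => ?_⟩
  have hN1 : N₁ ≤ N := (le_max_left _ _).trans hN
  have hN0 : 0 < N := (le_max_right _ _).trans hN
  obtain ⟨s, hs⟩ : ∃ s, s = w + l := ⟨_, rfl⟩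
  obtain ⟨t, ht⟩ : ∃ t, t = w' + l' := ⟨_, rfl⟩
  have hsr : (s : ℝ) = (w : ℝ) + l := by rw [hs]; push_cast; ring
  have htr : (t : ℝ) = (w' : ℝ) + l' := by rw [ht]; push_cast; ring
  have hst : s < t := by omega
  -- the claims
  have hA : Claim (m := 2) a R (fun J F A => ∀ q < t, ∀ v < w', (w ≤ v ∧ b ≤ q - (v + 1) ∧
      v + 1 ≤ q) →
      Lb F i₀ ⌊h₁ * J⌋₊ A →
      (∀ h : ℕ, (h : ℝ) ≤ ((q - (v + 1) : ℕ) : ℝ) * (J / N : ℕ) + μ * J → Ln F i₀ h A) →
      Cn F i₀ ((q - (v + 1)) * (J / N)) ((v + 1) * (J / N)) A →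
      CH (Pool.Agent.H49.Ent.cond F.p A True) (F.X (((q - (v + 1)) + v + 2) * (J / N)))
        (fun ω => (F.X (((q - (v + 1)) + v + 1) * (J / N)) ω, F.W ω)) ≤
          (2 - c / 2) * ((J / N : ℕ) * Real.log 2) →
      Cn F i₀ (((q - (v + 1)) - b) * (J / N)) (v * (J / N)) A) := by
    refine Claim.all t fun q hq => Claim.all w' fun v hv => Claim.cnd fun hqv => ?_
    have hwv : (w : ℝ) ≤ v := by exact_mod_cast hqv.1
    refine h1 N hN1 i₀ (q - (v + 1)) v hqv.2.1 (hω.trans hwv) ?_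
    have e1 : q - (v + 1) + v + 2 ≤ t := by omega
    have e2 : (((q - (v + 1) : ℕ) : ℝ) + v + 2) ≤ t := by exact_mod_cast e1
    rw [htr] at e2
    linarith
  have hL : Claim (m := 2) a R (fun J F A => IsLaw (Pool.Agent.H49.Ent.cond F.p A True)) := by
    refine Claim.of one_pos 0 fun J _ F A hS => ?_
    obtain ⟨h, -⟩ := hS.res ha.le zero_le_one
    exact h
  refine Claim.mono N ?_ (hA.and hL)
  rintro J hJ F A ⟨hA, hq⟩ hLb hLn hC2 hnC
  obtain ⟨u, hu⟩ : ∃ u, u = J / N := ⟨_, rfl⟩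
  have hu0 : 0 < u := by rw [hu]; exact Nat.div_pos hJ hN0
  have hur : (0 : ℝ) < u := by exact_mod_cast hu0
  rw [← hu] at hA hLn hC2 hnC ⊢
  have hUL : (0 : ℝ) < u * Real.log 2 := by positivity
  have hbd := rowf_bd F A hq hu0
  -- the bad rows
  have hcount := bad_count (fun l v => Cn F i₀ (l * u) (v * u) A)
    (fun q => rowf F A u (q + 1) - rowf F A u q < 2 - c / 2) (l := l) (l' := l') (b := b) hw
    (fun v => by rw [Nat.zero_mul]; exact hLb.cn _)
    (fun l l' v hl hQ => hQ.mono (Nat.mul_le_mul_right u hl)) hC2 hnC ?_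
  swap
  · intro q v hq1 hq2 hv1 hv2 hvq hB hb hQ
    refine hA q (by omega) v hv2 ⟨hv1, hb, hvq⟩ hLb (fun h hh => hLn h (hh.trans ?_)) hQ ?_
    · have h2 : ((q - (v + 1) : ℕ) : ℝ) ≤ (w' : ℝ) + l' - w := by
        rw [Nat.cast_sub hvq]
        have : (q : ℝ) ≤ (w' : ℝ) + l' := by exact_mod_cast hq2.le
        have : (w : ℝ) ≤ v := by exact_mod_cast hv1
        push_cast
        linarith
      have := mul_le_mul_of_nonneg_right h2 hur.le
      linarith
    · have e1 : q - (v + 1) + v + 1 = q := by omega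
      have e2 : q - (v + 1) + v + 2 = q + 1 := by omega
      rw [e1, e2, ← rowf_eq F A hq hu0 (Nat.le_succ q)]
      exact mul_le_mul_of_nonneg_right hB.le hUL.le
  -- the sum
  have hsum : ∑ q ∈ Finset.Ico (w + l) (w' + l'), (rowf F A u (q + 1) - rowf F A u q) =
      rowf F A u t - rowf F A u s := by
    rw [Finset.sum_Ico_eq_sub _ (by omega), Finset.sum_range_sub, Finset.sum_range_sub,
      ← hs, ← ht]
    ring
  have hge : (2 - c / 2) * (((t : ℝ) - s) - ((b : ℝ) + 2) * ((w' : ℝ) - w)) ≤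
      rowf F A u t - rowf F A u s := by
    rw [← hsum]
    have h2 : ∀ q ∈ Finset.Ico (w + l) (w' + l'),
        (2 - c / 2) * (1 - (if rowf F A u (q + 1) - rowf F A u q < 2 - c / 2 then (1 : ℝ) else 0))
          ≤ rowf F A u (q + 1) - rowf F A u q := by
      intro q _
      split_ifs with h3
      · rw [sub_self, mul_zero]
        exact (hbd q (q + 1) (Nat.le_succ q)).1
      · rw [sub_zero, mul_one]
        exact not_lt.1 h3
    refine le_trans ?_ (Finset.sum_le_sum h2)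
    rw [← Finset.mul_sum, Finset.sum_sub_distrib, Finset.sum_const, Nat.card_Ico, nsmul_eq_mul,
      mul_one, Finset.sum_ite, Finset.sum_const_zero, add_zero, Finset.sum_const, nsmul_eq_mul,
      mul_one]
    refine mul_le_mul_of_nonneg_left ?_ (by linarith)
    have e1 : ((w' + l' - (w + l) : ℕ) : ℝ) = (t : ℝ) - s := by
      rw [← hs, ← ht, Nat.cast_sub hst.le]
    rw [e1]
    have h3 : (((Finset.Ico (w + l) (w' + l')).filter fun q =>
        rowf F A u (q + 1) - rowf F A u q < 2 - c / 2).card : ℝ) ≤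
        (((b + 2) * (w' - w) : ℕ) : ℝ) := by
      refine Nat.cast_le.2 (le_trans (le_of_eq ?_) hcount)
      congr
    push_cast [Nat.cast_sub hw] at h3
    linarith
  have hkey : ((b : ℝ) + 2) * ((w' : ℝ) - w) * 4 < c * ((t : ℝ) - s) := by
    have h2 : (C : ℝ) * ((w' : ℝ) - w) < (t : ℝ) - s := by
      have h3 : ((w + l + C * (w' - w) : ℕ) : ℝ) < ((w' + l' : ℕ) : ℝ) := by
        exact_mod_cast hCw
      push_cast [Nat.cast_sub hw] at h3
      rw [htr, hsr]
      linarith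
    have h4 : (0 : ℝ) ≤ (w' : ℝ) - w := by
      have : (w : ℝ) ≤ w' := by exact_mod_cast hw
      linarith
    have h5 : 4 * ((b : ℝ) + 2) * ((w' : ℝ) - w) ≤ C * c * ((w' : ℝ) - w) :=
      mul_le_mul_of_nonneg_right hC'.le h4
    have h6 : c * ((C : ℝ) * ((w' : ℝ) - w)) < c * ((t : ℝ) - s) :=
      mul_lt_mul_of_pos_left h2 hc0
    nlinarith
  have e1 : (w' : ℝ) + l' - (w + l) = (t : ℝ) - s := by rw [htr, hsr]
  rw [e1]
  have e2 := rowf_eq F A hq hu0 hst.le
  rw [hs, ht] at e2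
  rw [← e2, ← hs, ← ht, ← mul_assoc]
  refine mul_lt_mul_of_pos_right ?_ hUL
  have h7 : 0 < (t : ℝ) - s := by
    have : (s : ℝ) < t := by exact_mod_cast hst
    linarith
  have h8 : (2 - c₀) * ((t : ℝ) - s) ≤ (2 - c) * ((t : ℝ) - s) :=
    mul_le_mul_of_nonneg_right (by linarith) h7.le
  have h9 : (0 : ℝ) ≤ ((b : ℝ) + 2) * ((w' : ℝ) - w) := by
    have : (w : ℝ) ≤ w' := by exact_mod_cast hw
    exact mul_nonneg (by positivity) (by linarith)
  nlinarith

end Pool.Agent.H60.K2S
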