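import Pool.Agent.H56.K2S.Stmts

/-!
# (2.3.4): several partners with a common label
-/

set_option autoImplicit false

namespace Pool.K2S

open Finset Real
open Pool.Agent.H49.Ent Pool.Agent.H32.Dense Pool.STK Pool.KAF Pool.KA

section

variable {Ω S G : Type} [Fintype Ω]

open Classical in
/-- The probability of an event for `n + 1` samples with a common label. -/
theorem Pr_cpn (q : Ω → ℝ) (g : Ω → G) (n : ℕ) (Φ : (Fin (n + 1) → Ω) → Prop) :
    Pr (cpn q g n) {w | Φ w} = ∑ ω, ∑ v : Fin n → Ω,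
      if (∀ i, g (v i) = g ω) ∧ Φ (Fin.cons ω v) then
        q ω * (∏ i, q (v i)) / law q g (g ω) ^ n else 0 := by
  rw [Pr_eq, ← (Fin.consEquiv fun _ : Fin (n + 1) => Ω).sum_comp, Fintype.sum_prod_type]
  refine Finset.sum_congr rfl fun ω _ => Finset.sum_congr rfl fun v _ => ?_
  have h1 : (Fin.consEquiv fun _ : Fin (n + 1) => Ω) (ω, v) = Fin.cons ω v := rfl
  rw [h1]
  simp only [Set.mem_ofPred_eq]
  unfold cpn
  have h2 : (∀ i : Fin (n + 1), g ((Fin.cons ω v : Fin (n + 1) → Ω) i) = g ω) ↔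
      ∀ i, g (v i) = g ω := by
    rw [Fin.forall_fin_succ]
    simp
  rw [Fin.prod_univ_succ]
  simp only [Fin.cons_zero, Fin.cons_succ]
  by_cases h3 : ∀ i, g (v i) = g ω
  · rw [if_pos (h2.2 h3)]
    by_cases h4 : Φ (Fin.cons ω v)
    · rw [if_pos h4, if_pos ⟨h3, h4⟩]
    · rw [if_neg h4, if_neg fun h => h4 h.2]
  · rw [if_neg fun h => h3 (h2.1 h), ite_self, if_neg fun h => h3 h.1]

open Classical in
/-- The mass of the samples with the same label as `ω` whose value is related to that of `ω`. -/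
noncomputable def prt (q : Ω → ℝ) (c : Ω → S) (g : Ω → G) (r : S → S → Prop) (ω : Ω) : ℝ :=
  ∑ ω', if g ω' = g ω ∧ r (c ω) (c ω') then q ω' else 0

theorem Pr_cpy_eq (q : Ω → ℝ) (c : Ω → S) (g : Ω → G) (r : S → S → Prop) :
    Pr (cpy q g) {w | r (c w.1) (c w.2)} =
      ∑ ω, q ω * (prt q c g r ω / law q g (g ω)) := by
  classical
  rw [Pr_eq, Fintype.sum_prod_type]
  refine Finset.sum_congr rfl fun ω _ => ?_
  unfold prt
  rw [Finset.sum_div, Finset.mul_sum]
  refine Finset.sum_congr rfl fun ω' _ => ?_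
  simp only [Set.mem_ofPred_eq]
  unfold cpy
  by_cases h1 : g ω' = g ω
  · by_cases h2 : r (c ω) (c ω')
    · rw [if_pos h2, if_pos h1.symm, if_pos ⟨h1, h2⟩, mul_div_assoc]
    · rw [if_neg h2, if_neg fun h => h2 h.2]; simp
  · simp [h1, Ne.symm h1]

theorem Pr_cpn_rel (q : Ω → ℝ) (c : Ω → S) (g : Ω → G) (r : S → S → Prop) (n : ℕ) :
    Pr (cpn q g n) {w | ∀ i : Fin n, r (c (w 0)) (c (w i.succ))} =
      ∑ ω, q ω * (prt q c g r ω / law q g (g ω)) ^ n := by
  classical
  rw [Pr_cpn q g n (fun w => ∀ i : Fin n, r (c (w 0)) (c (w i.succ)))]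
  refine Finset.sum_congr rfl fun ω _ => ?_
  unfold prt
  rw [div_pow, Fintype.sum_pow, Finset.sum_div, Finset.mul_sum]
  refine Finset.sum_congr rfl fun v _ => ?_
  simp only [Fin.cons_zero, Fin.cons_succ]
  have h1 : (∏ i, if g (v i) = g ω ∧ r (c ω) (c (v i)) then q (v i) else 0) =
      if (∀ i, g (v i) = g ω) ∧ ∀ i, r (c ω) (c (v i)) then ∏ i, q (v i) else 0 := by
    by_cases h : (∀ i, g (v i) = g ω) ∧ ∀ i, r (c ω) (c (v i))
    · rw [if_pos h]
      exact Finset.prod_congr rfl fun i _ => if_pos ⟨h.1 i, h.2 i⟩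
    · rw [if_neg h]
      have : ∃ i, ¬ (g (v i) = g ω ∧ r (c ω) (c (v i))) := by
        by_contra hc
        push Not at hc
        exact h ⟨fun i => (hc i).1, fun i => (hc i).2⟩
      obtain ⟨i, hi⟩ := this
      exact Finset.prod_eq_zero (Finset.mem_univ i) (if_neg hi)
  rw [h1]
  split_ifs
  · rw [mul_div_assoc]
  · simp

/-- Several partners with a common label. -/
theorem exists_partners {q : Ω → ℝ} (hq : IsLaw q) (g : Ω → G) (n : ℕ)
    (Φ : (Fin (n + 1) → Ω) → Prop) :
    ∃ ζ : G → Fin n → Ω, (∀ ω, 0 < q ω → ∀ i, g (ζ (g ω) i) = g ω ∧ 0 < q (ζ (g ω) i)) ∧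
      Pr (cpn q g n) {w | Φ w} ≤ Pr q {ω | Φ (Fin.cons ω (ζ (g ω)))} := by
  classical
  have hne : Nonempty Ω := by
    by_contra h
    rw [not_nonempty_iff] at h
    have := hq.sum_one
    rw [Finset.univ_eq_empty, Finset.sum_empty] at this
    exact zero_ne_one this
  -- the mass of good samples with label `t` and partners `v`
  set m : G → (Fin n → Ω) → ℝ := fun t v =>
    ∑ ω ∈ univ.filter (fun ω => g ω = t), if Φ (Fin.cons ω v) then q ω else 0 with hm
  have hch : ∀ t : G, ∃ v : Fin n → Ω, 0 < law q g t →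
      (∀ i, g (v i) = t ∧ 0 < q (v i)) ∧
      ∀ v' : Fin n → Ω, (∀ i, g (v' i) = t ∧ 0 < q (v' i)) → m t v' ≤ m t v := by
    intro t
    by_cases ht : 0 < law q g t
    · have hex : ∃ ω, g ω = t ∧ 0 < q ω := by
        by_contra hc
        push Not at hc
        have : law q g t = 0 := by
          unfold law
          refine Finset.sum_eq_zero fun ω _ => ?_
          by_cases h : g ω = t
          · rw [if_pos h]
            exact le_antisymm (hc ω h) (hq.nonneg ω)
          · rw [if_neg h]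
        exact ht.ne' this
      obtain ⟨ω₀, h1, h2⟩ := hex
      obtain ⟨v, hv, hmax⟩ := Finset.exists_max_image
        (univ.filter fun v : Fin n → Ω => ∀ i, g (v i) = t ∧ 0 < q (v i)) (m t)
        ⟨fun _ => ω₀, by simp [h1, h2]⟩
      refine ⟨v, fun _ => ⟨(Finset.mem_filter.1 hv).2, fun v' hv' => hmax v' ?_⟩⟩
      exact Finset.mem_filter.2 ⟨Finset.mem_univ _, hv'⟩
    · exact ⟨fun _ => Classical.arbitrary Ω, fun h => absurd h ht⟩
  choose ζ hζ using hch
  refine ⟨ζ, fun ω hω i => (hζ (g ω) (law_pos hq.nonneg g hω)).1 i, ?_⟩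
  rw [Pr_cpn q g n Φ, Pr_eq]
  rw [← Finset.sum_fiberwise_of_maps_to (s := univ) (t := univ.image g) (g := g)
    (fun ω _ => Finset.mem_image_of_mem g (Finset.mem_univ ω)),
    ← Finset.sum_fiberwise_of_maps_to (s := univ) (t := univ.image g) (g := g)
    (f := fun ω => if ω ∈ {ω | Φ (Fin.cons ω (ζ (g ω)))} then q ω else 0)
    (fun ω _ => Finset.mem_image_of_mem g (Finset.mem_univ ω))]
  refine Finset.sum_le_sum fun t _ => ?_
  have hR : ∑ ω ∈ univ.filter (fun ω => g ω = t),
      (if ω ∈ {ω | Φ (Fin.cons ω (ζ (g ω)))} then q ω else 0) = m t (ζ t) := by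
    refine Finset.sum_congr rfl fun ω hω => ?_
    rw [Finset.mem_filter] at hω
    simp only [Set.mem_ofPred_eq, hω.2]
  rw [hR]
  have hL : (∑ ω ∈ univ.filter (fun ω => g ω = t), ∑ v : Fin n → Ω,
      if (∀ i, g (v i) = g ω) ∧ Φ (Fin.cons ω v) then
        q ω * (∏ i, q (v i)) / law q g (g ω) ^ n else 0) =
      ∑ v : Fin n → Ω, (if ∀ i, g (v i) = t then (∏ i, q (v i)) / law q g t ^ n else 0) *
        m t v := by
    rw [Finset.sum_comm]
    refine Finset.sum_congr rfl fun v _ => ?_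
    rw [hm, Finset.mul_sum]
    refine Finset.sum_congr rfl fun ω hω => ?_
    rw [Finset.mem_filter] at hω
    rw [hω.2]
    by_cases h1 : ∀ i, g (v i) = t
    · by_cases h2 : Φ (Fin.cons ω v)
      · rw [if_pos ⟨h1, h2⟩, if_pos h1, if_pos h2]; ring
      · rw [if_neg fun h => h2 h.2, if_neg h2, mul_zero]
    · rw [if_neg fun h => h1 h.1, if_neg h1, zero_mul]
  rw [hL]
  rcases (law_nonneg hq.nonneg g t).eq_or_lt with ht | ht
  · -- the label has mass zero
    have hz : ∀ v, m t v = 0 := by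
      intro v
      refine Finset.sum_eq_zero fun ω hω => ?_
      rw [Finset.mem_filter] at hω
      have h0 : q ω = 0 := by
        by_contra hc
        have hpos : 0 < q ω := lt_of_le_of_ne (hq.nonneg ω) (Ne.symm hc)
        have := law_pos hq.nonneg g hpos
        rw [hω.2] at this
        exact this.ne ht
      rw [h0, ite_self]
    rw [Finset.sum_eq_zero fun v _ => by rw [hz v, mul_zero], hz]
  · obtain ⟨-, h2⟩ := hζ t ht
    calc _ ≤ ∑ v : Fin n → Ω, (if ∀ i, g (v i) = t then (∏ i, q (v i)) / law q g t ^ n else 0) *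
          m t (ζ t) := by
          refine Finset.sum_le_sum fun v _ => ?_
          split_ifs with h
          · by_cases h3 : ∀ i, 0 < q (v i)
            · refine mul_le_mul_of_nonneg_left (h2 v fun i => ⟨h i, h3 i⟩) ?_
              exact div_nonneg (Finset.prod_nonneg fun i _ => hq.nonneg _) (pow_nonneg ht.le _)
            · push Not at h3
              obtain ⟨i, hi⟩ := h3
              have h4 : (∏ i, q (v i)) = 0 :=
                Finset.prod_eq_zero (Finset.mem_univ i) (le_antisymm hi (hq.nonneg _))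
              rw [h4]; simp
          · simp
      _ = 1 * m t (ζ t) := by
          rw [← Finset.sum_mul]
          congr 1
          have h3 : ∑ v : Fin n → Ω, (if ∀ i, g (v i) = t then
              (∏ i, q (v i)) / law q g t ^ n else 0) =
              (∑ ω, if g ω = t then q ω else 0) ^ n / law q g t ^ n := by
            rw [Fintype.sum_pow, Finset.sum_div]
            refine Finset.sum_congr rfl fun v _ => ?_
            rw [Finset.prod_ite_zero]
            by_cases h : ∀ i, g (v i) = t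
            · rw [if_pos h, if_pos fun i _ => h i]
            · rw [if_neg h, if_neg fun h' => h fun i => h' i (Finset.mem_univ i), zero_div]
          rw [h3]
          have h4 : (∑ ω, if g ω = t then q ω else 0) = law q g t := rfl
          rw [h4]
          exact div_self (pow_pos ht n).ne'
      _ = m t (ζ t) := one_mul _

end

/-- (2.3.4), several partners. -/
theorem s235_thm : S235Stmt := by
  classical
  intro Ω S G _ p hp r c g B β n E hB hβ h1 h2
  set q := rs p B with hqdef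
  have hq : IsLaw q := rs_law hp hB
  obtain ⟨ζ, hζ, h3⟩ := exists_partners hq g n
    (fun w => (∀ i : Fin n, r (c (w 0)) (c (w i.succ))) ∧ w ∉ E)
  have hqv : ∀ ω, q ω = if ω ∈ B then p ω / Pr p B else 0 := by
    intro ω
    rw [hqdef]
    unfold rs Pool.Agent.H49.Ent.cond
    by_cases h : ω ∈ B <;> simp [h, Pr]
  refine ⟨ζ, fun ω hω hpω i => ?_, ?_⟩
  · have h4 : 0 < q ω := (rs_pos_iff hp B ω).2 ⟨hpω, hω⟩
    exact ⟨(hζ ω h4 i).1, ((rs_pos_iff hp B _).1 (hζ ω h4 i).2).2⟩
  · -- power mean inequality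
    have h4 : β ^ n ≤ Pr (cpn q g n) {w | ∀ i : Fin n, r (c (w 0)) (c (w i.succ))} := by
      rw [Pr_cpn_rel]
      refine (pow_le_pow_left₀ hβ.le (h1.trans_eq (Pr_cpy_eq q c g r)) n).trans ?_
      refine Real.pow_arith_mean_le_arith_mean_pow univ q _ (fun i _ => hq.nonneg i) hq.sum_one
        (fun ω _ => div_nonneg ?_ (law_nonneg hq.nonneg _ _)) n
      refine Finset.sum_nonneg fun ω' _ => ?_
      split_ifs
      exacts [hq.nonneg _, le_rfl]
    have hcn : ∀ w, 0 ≤ cpn q g n w := by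
      intro w
      unfold cpn
      split_ifs
      · exact div_nonneg (Finset.prod_nonneg fun i _ => hq.nonneg _)
          (pow_nonneg (law_nonneg hq.nonneg _ _) _)
      · exact le_rfl
    have h5 : Pr (cpn q g n) {w | ∀ i : Fin n, r (c (w 0)) (c (w i.succ))} ≤
        Pr (cpn q g n) {w | (∀ i : Fin n, r (c (w 0)) (c (w i.succ))) ∧ w ∉ E} +
        Pr (cpn q g n) E := by
      refine (Pr_mono hcn ?_).trans (Pr_union_le hcn _ _)
      intro w _ hw
      by_cases hE : w ∈ E
      · exact Or.inr hE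
      · exact Or.inl ⟨hw, hE⟩
    have h6 : β ^ n / 2 ≤ Pr q {ω | (fun w : Fin (n + 1) → Ω =>
        (∀ i : Fin n, r (c (w 0)) (c (w i.succ))) ∧ w ∉ E) (Fin.cons ω (ζ (g ω)))} := by
      linarith
    have h7 : Pr q {ω | (fun w : Fin (n + 1) → Ω =>
        (∀ i : Fin n, r (c (w 0)) (c (w i.succ))) ∧ w ∉ E) (Fin.cons ω (ζ (g ω)))} * Pr p B =
        Pr p {ω | ω ∈ B ∧ (∀ i, r (c ω) (c (ζ (g ω) i))) ∧ Fin.cons ω (ζ (g ω)) ∉ E} := by
      rw [Pr_eq, Pr_eq p {ω | ω ∈ B ∧ (∀ i, r (c ω) (c (ζ (g ω) i))) ∧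
        Fin.cons ω (ζ (g ω)) ∉ E}, Finset.sum_mul]
      refine Finset.sum_congr rfl fun ω _ => ?_
      simp only [Set.mem_ofPred_eq, Fin.cons_zero, Fin.cons_succ]
      rw [hqv ω]
      by_cases h8 : ω ∈ B
      · by_cases h9 : (∀ i, r (c ω) (c (ζ (g ω) i))) ∧ Fin.cons ω (ζ (g ω)) ∉ E
        · rw [if_pos h9, if_pos h8, if_pos ⟨h8, h9⟩, div_mul_cancel₀ _ hB.ne']
        · rw [if_neg h9, if_neg fun h => h9 h.2, zero_mul]
      · rw [if_neg h8, ite_self, if_neg fun h => h8 h.1, zero_mul]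
    rw [← h7]
    exact mul_le_mul_of_nonneg_right h6 hB.le

end Pool.K2S
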